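import Pool.Agent.H25.Ham

set_option autoImplicit false

namespace Pool.Agent.Results.MP_e645df_co.Cubic

open Pool.Agent.H25.Ham

/-- The maximal spanning time of a nonempty zero-set whose largest square has side `s` is at
most `6 s^3`. -/
theorem result (I : Finset (ℕ × ℕ)) (s : ℕ) (hne : (zeroSet I).Nonempty)
    (_h1 : square s ⊆ zeroSet I) (h2 : ¬ square (s + 1) ⊆ zeroSet I) :
    maxTime (zeroSet I) ≤ ((6 * s ^ 3 : ℕ) : ℕ∞) := by
  have hs : 1 ≤ s := by
    by_contra hc
    obtain ⟨p, r, hr, h3, h4⟩ := hne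
    exact h2 fun q hq => ⟨r, hr, by have := hq.1; omega, by have := hq.2; omega⟩
  refine iSup₂_le fun A hA => ?_
  obtain ⟨t, ht, e⟩ := bound I s h2 A hA.2
  refine (iInf₂_le t e).trans ?_
  have : (2 * s ^ 2 + 1) * (s + 1) ≤ (3 * s ^ 2) * (2 * s) :=
    Nat.mul_le_mul (by nlinarith) (by omega)
  exact_mod_cast ht.trans (this.trans (by ring_nf; rfl))

end Pool.Agent.Results.MP_e645df_co.Cubic
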